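import Pool.Agent.H15.KI.TargetsA
import Pool.Agent.H84.KEW.Coh

/-!
# Project KEW-I, row LOCC: the comparison map of the improved Milnor K-sheaf
-/

namespace Pool.Agent.H30.KI

open AlgebraicGeometry CategoryTheory CategoryTheory.Limits TopologicalSpace Opposite
open Pool.Agent.H15.KS Pool.Agent.H62.KB Pool.Agent.H15.KI
open Pool.Agent.H84.KEW (LocSurjAt)

universe u

noncomputable section

namespace LOCC

variable {Φ Ψ : CommRingCat.{u} ⥤ AddCommGrpCat.{u}}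

lemma nat_ap (α : Φ ⟶ Ψ) {R S : CommRingCat.{u}} (f : R ⟶ S) (a : Φ.obj R) :
    ap (Ψ.map f) (ap (α.app R) a) = ap (α.app S) (ap (Φ.map f) a) :=
  (ConcreteCategory.congr_hom (α.naturality f) a).symm

lemma ap_ap (Φ : CommRingCat.{u} ⥤ AddCommGrpCat.{u}) {R S T : CommRingCat.{u}} (f : R ⟶ S)
    (g : S ⟶ T) (a : Φ.obj R) : ap (Φ.map g) (ap (Φ.map f) a) = ap (Φ.map (f ≫ g)) a :=
  (ConcreteCategory.congr_hom (Φ.map_comp f g) a).symm

lemma ap_zero {A B : AddCommGrpCat.{u}} (g : A ⟶ B) : ap g 0 = 0 := map_zero g.hom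

lemma ap_sub {A B : AddCommGrpCat.{u}} (g : A ⟶ B) (a b : A) : ap g (a - b) = ap g a - ap g b :=
  map_sub g.hom a b

variable {X : Scheme.{u}}

/-- The restriction of sections. -/
def res {V U : X.Opens} (h : V ≤ U) : Γ(X, U) ⟶ Γ(X, V) := X.presheaf.map (homOfLE h).op

/-- The restriction of sections of a sheaf. -/
def rs (F : AbSh X) {V U : X.Opens} (h : V ≤ U) : secs F U ⟶ secs F V :=
  F.obj.map (homOfLE h).op

/-- The germ. -/
def gm {U : X.Opens} {x : X} (h : x ∈ U) : Γ(X, U) ⟶ X.presheaf.stalk x :=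
  X.presheaf.germ U x h

lemma res_res {W V U : X.Opens} (h : V ≤ U) (h' : W ≤ V) :
    res h ≫ res h' = res (h'.trans h) := by
  unfold res
  rw [← Functor.map_comp]
  rfl

lemma res_gm {V U : X.Opens} (h : V ≤ U) {x : X} (hx : x ∈ V) : res h ≫ gm hx = gm (h hx) :=
  TopCat.Presheaf.germ_res X.presheaf (homOfLE h) x hx

lemma rs_rs (F : AbSh X) {W V U : X.Opens} (h : V ≤ U) (h' : W ≤ V) (s : secs F U) :
    ap (rs F h') (ap (rs F h) s) = ap (rs F (h'.trans h)) s :=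
  (ConcreteCategory.congr_hom (F.obj.map_comp (homOfLE h).op (homOfLE h').op) s).symm

lemma rs_onSecs {F G : AbSh X} (g : F ⟶ G) {V U : X.Opens} (h : V ≤ U) (s : secs F U) :
    ap (rs G h) (ap (onSecs g U) s) = ap (onSecs g V) (ap (rs F h) s) :=
  (ConcreteCategory.congr_hom (g.hom.naturality (homOfLE h).op) s).symm

/-- The section of the sheaf given by a section of the presheaf. -/
def ts (Φ : CommRingCat.{u} ⥤ AddCommGrpCat.{u}) (U : X.Opens) (a : Φ.obj Γ(X, U)) :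
    secs (Sh Φ X) U := ap (toShf (X.presheaf ⋙ Φ) U) a

lemma rs_ts (Φ : CommRingCat.{u} ⥤ AddCommGrpCat.{u}) {V U : X.Opens} (h : V ≤ U)
    (a : Φ.obj Γ(X, U)) : ap (rs (Sh Φ X) h) (ts Φ U a) = ts Φ V (ap (Φ.map (res h)) a) :=
  (ConcreteCategory.congr_hom ((toSheafify (Opens.grothendieckTopology X)
    (X.presheaf ⋙ Φ)).naturality (homOfLE h).op) a).symm

lemma onSh_ts (α : Φ ⟶ Ψ) (U : X.Opens) (a : Φ.obj Γ(X, U)) :
    ap (onSecs (onSh α X) U) (ts Φ U a) = ts Ψ U (ap (α.app Γ(X, U)) a) := by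
  have h := toSheafify_naturality (Opens.grothendieckTopology X) (Functor.whiskerLeft X.presheaf α)
  have h1 := congrArg (fun m => m.app (op U)) h
  exact (ConcreteCategory.congr_hom h1 a).symm

lemma exists_rep (Φ : CommRingCat.{u} ⥤ AddCommGrpCat.{u}) {U : X.Opens} (s : secs (Sh Φ X) U)
    {x : X} (hx : x ∈ U) :
    ∃ (V : X.Opens) (hV : V ≤ U) (_ : x ∈ V) (a : Φ.obj Γ(X, V)),
      ts Φ V a = ap (rs (Sh Φ X) hV) s := by
  have h : CategoryTheory.Presheaf.IsLocallySurjective (Opens.grothendieckTopology X)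
      (toSheafify (Opens.grothendieckTopology X) (X.presheaf ⋙ Φ)) := inferInstance
  obtain ⟨V, i, ⟨s₀, hs⟩, hxV⟩ := h.imageSieve_mem s x hx
  exact ⟨V, leOfHom i, hxV, s₀, hs⟩

lemma exists_zero (Φ : CommRingCat.{u} ⥤ AddCommGrpCat.{u}) {U : X.Opens} (a : Φ.obj Γ(X, U))
    {x : X} (hx : x ∈ U) (h : ts Φ U a = 0) :
    ∃ (V : X.Opens) (hV : V ≤ U) (_ : x ∈ V), ap (Φ.map (res hV)) a = 0 := by
  have h1 : CategoryTheory.Presheaf.IsLocallyInjective (Opens.grothendieckTopology X)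
      (toSheafify (Opens.grothendieckTopology X) (X.presheaf ⋙ Φ)) := inferInstance
  have h2 : (toSheafify (Opens.grothendieckTopology X) (X.presheaf ⋙ Φ)).app (op U) a =
      (toSheafify (Opens.grothendieckTopology X) (X.presheaf ⋙ Φ)).app (op U) (0 : Φ.obj Γ(X, U)) :=
    h.trans (map_zero _).symm
  obtain ⟨V, i, hs, hxV⟩ := h1.equalizerSieve_mem (X := op U) a (0 : Φ.obj Γ(X, U)) h2 x hx
  refine ⟨V, leOfHom i, hxV, ?_⟩
  have h3 : (X.presheaf ⋙ Φ).map i.op a = (X.presheaf ⋙ Φ).map i.op (0 : Φ.obj Γ(X, U)) := hs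
  exact h3.trans (map_zero _)

/-! ### The stalk as a colimit -/

/-- The neighbourhoods of `x`. -/
abbrev Nb (x : X) : Type u := {U : X.Opens // x ∈ U}ᵒᵈ

/-- The neighbourhood as an open set. -/
def op' {x : X} (j : Nb x) : X.Opens := (OrderDual.ofDual j).1

lemma mem_op' {x : X} (j : Nb x) : x ∈ op' j := (OrderDual.ofDual j).2

lemma op'_le {x : X} {i j : Nb x} (h : i ≤ j) : op' j ≤ op' i := h

lemma isCol (x : X) : IsCol (J := Nb x) (fun j => (Γ(X, op' j) : Type u)) (X.presheaf.stalk x)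
    (fun _ _ h => (res (op'_le h)).hom) (fun j => (gm (mem_op' j)).hom) where
  dir i j := ⟨OrderDual.toDual ⟨op' i ⊓ op' j, mem_op' i, mem_op' j⟩,
    show op' i ⊓ op' j ≤ op' i from inf_le_left, show op' i ⊓ op' j ≤ op' j from inf_le_right⟩
  ne := ⟨OrderDual.toDual ⟨⊤, trivial⟩⟩
  comp i j k h h' := congrArg CommRingCat.Hom.hom (res_res (op'_le h) (op'_le h'))
  map i j h := congrArg CommRingCat.Hom.hom (res_gm (op'_le h) (mem_op' j))
  surj s := by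
    obtain ⟨U, hx, g, hg⟩ := TopCat.Presheaf.exists_germ_eq X.presheaf s
    exact ⟨OrderDual.toDual ⟨U, hx⟩, g, hg⟩
  inj j s hs := by
    have h0 : X.presheaf.germ (op' j) x (mem_op' j) s = X.presheaf.germ (op' j) x (mem_op' j) 0 :=
      hs.trans (map_zero _).symm
    obtain ⟨W, hxW, iU, iV, hW⟩ := TopCat.Presheaf.germ_eq X.presheaf x (mem_op' j) (mem_op' j)
      s 0 h0
    refine ⟨OrderDual.toDual ⟨W, hxW⟩, leOfHom iU, ?_⟩
    exact hW.trans (map_zero _)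

/-- Injectivity for the stalk. -/
lemma col_zero (hC : T_COL.{u}) {n : ℕ} {x : X} {U : X.Opens} (hx : x ∈ U)
    (a : (MKF n).obj Γ(X, U)) (h : ap ((MKF n).map (gm hx)) a = 0) :
    ∃ (V : X.Opens) (hV : V ≤ U) (_ : x ∈ V), ap ((MKF n).map (res hV)) a = 0 := by
  obtain ⟨k, hk, hk'⟩ := (hC (Nb x) _ _ _ _ (isCol x) n).2 (OrderDual.toDual ⟨U, hx⟩) a h
  exact ⟨op' k, hk, mem_op' k, hk'⟩

lemma col_surj (hC : T_COL.{u}) {n : ℕ} {x : X} (a : (MKF n).obj (X.presheaf.stalk x)) :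
    ∃ (V : X.Opens) (hx : x ∈ V) (b : (MKF n).obj Γ(X, V)), ap ((MKF n).map (gm hx)) b = a := by
  obtain ⟨k, w, hw⟩ := (hC (Nb x) _ _ _ _ (isCol x) n).1 a
  exact ⟨op' k, mem_op' k, w, hw⟩

lemma col_zero1 (hC : T_COL.{u}) (hN : T_NAGC.{u}) {n : ℕ} {x : X} {U : X.Opens} (hx : x ∈ U)
    (a : (NagF ⋙ MKF n).obj Γ(X, U)) (h : ap ((NagF ⋙ MKF n).map (gm hx)) a = 0) :
    ∃ (V : X.Opens) (hV : V ≤ U) (_ : x ∈ V), ap ((NagF ⋙ MKF n).map (res hV)) a = 0 := by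
  obtain ⟨k, hk, hk'⟩ := (hC (Nb x) _ _ _ _ (hN (Nb x) _ _ _ _ (isCol x)) n).2
    (OrderDual.toDual ⟨U, hx⟩) a h
  exact ⟨op' k, hk, mem_op' k, hk'⟩

/-! ### The comparison map -/

lemma eqι_mono {𝒜 : Type*} [Category* 𝒜] [Abelian 𝒜] {A B : 𝒜} (f g : A ⟶ B) :
    Mono (eqι f g) :=
  equalizer.ι_mono

lemma inKI_inj (n : ℕ) (X : Scheme.{u}) (U : X.Opens) (s : secs (KI n X) U)
    (h : ap (onSecs (inKI n X) U) s = 0) : s = 0 := by
  have h1 : Mono (inKI n X) := eqι_mono _ _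
  have h2 : Mono (inKI n X).hom := (Sheaf.Hom.mono_iff_presheaf_mono _ _ _).mp h1
  have h3 : Mono ((inKI n X).hom.app (op U)) := (NatTrans.mono_iff_mono_app _).mp h2 (op U)
  exact (AddCommGrpCat.mono_iff_injective _).mp h3 (h.trans (map_zero _).symm)

lemma inKI_c (hI : T_IMP.{u}) (n : ℕ) {U : X.Opens} (a : (MKF n).obj Γ(X, U)) :
    ap (onSecs (inKI n X) U) (ap (onSecs ((improved n).c X) U) (ts (MKF n) U a)) =
      ts (NagF ⋙ MKF n) U (ap ((k0 n).app Γ(X, U)) a) := by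
  refine Eq.trans ?_ (onSh_ts (k0 n) U a)
  exact congrArg (fun g : K X n ⟶ Sh (NagF ⋙ MKF n) X => ap (onSecs g U) (ts (MKF n) U a))
    ((hI n).1 X)

lemma k12 (n : ℕ) {U : X.Opens} (s : secs (KI n X) U) :
    ap (onSecs (onSh (k1 n) X) U) (ap (onSecs (inKI n X) U) s) =
      ap (onSecs (onSh (k2 n) X) U) (ap (onSecs (inKI n X) U) s) := by
  have h1 : inKI n X ≫ (onSh (k1 n) X - onSh (k2 n) X) = 0 := kernel.condition _
  rw [Preadditive.comp_sub, sub_eq_zero] at h1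
  exact congrArg (fun g : KI n X ⟶ Sh (NagF ⋙ NagF ⋙ MKF n) X => ap (onSecs g U) s) h1

/-- A section of the improved sheaf locally. -/
lemma rep_KI {n : ℕ} {U : X.Opens} (s : secs (KI n X) U) {x : X} (hx : x ∈ U) :
    ∃ (V : X.Opens) (hV : V ≤ U) (_ : x ∈ V) (b : (NagF ⋙ MKF n).obj Γ(X, V)),
      ts (NagF ⋙ MKF n) V b = ap (onSecs (inKI n X) V) (ap (rs (KI n X) hV) s) ∧
        ap ((k1 n).app Γ(X, V)) b = ap ((k2 n).app Γ(X, V)) b := by
  obtain ⟨V, hV, hxV, b, hb⟩ := exists_rep (NagF ⋙ MKF n) (ap (onSecs (inKI n X) U) s) hx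
  rw [rs_onSecs] at hb
  have h1 := k12 n (ap (rs (KI n X) hV) s)
  rw [← hb, onSh_ts, onSh_ts] at h1
  have h2 : ts (NagF ⋙ NagF ⋙ MKF n) V (ap ((k1 n).app Γ(X, V)) b - ap ((k2 n).app Γ(X, V)) b) =
      0 := (ap_sub _ _ _).trans (sub_eq_zero.mpr h1)
  obtain ⟨W, hW, hxW, h3⟩ := exists_zero (NagF ⋙ NagF ⋙ MKF n) _ hxV h2
  refine ⟨W, hW.trans hV, hxW, ap ((NagF ⋙ MKF n).map (res hW)) b, ?_, ?_⟩
  · rw [← rs_ts, hb, rs_onSecs, rs_rs]
  · rw [ap_sub, nat_ap, nat_ap] at h3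
    exact sub_eq_zero.mp h3

/-- The comparison map hits a section whose representative comes from `K`. -/
lemma hit (hI : T_IMP.{u}) {n : ℕ} {V : X.Opens} (t : secs (KI n X) V)
    (a : (MKF n).obj Γ(X, V))
    (h : ts (NagF ⋙ MKF n) V (ap ((k0 n).app Γ(X, V)) a) = ap (onSecs (inKI n X) V) t) :
    ap (onSecs ((improved n).c X) V) (ts (MKF n) V a) = t := by
  refine sub_eq_zero.mp (inKI_inj n X V _ ?_)
  refine (ap_sub (onSecs (inKI n X) V) (ap (onSecs ((improved n).c X) V) (ts (MKF n) V a))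
    t).trans ?_
  exact sub_eq_zero.mpr ((inKI_c hI n a).trans h)

end LOCC

open LOCC

theorem locInj (hC : T_COL.{u}) (hA : T_ALG.{u}) (hI : T_IMP.{u}) (n : ℕ) (X : Scheme.{u})
    (x : X) (hx : Infinite (IsLocalRing.ResidueField (X.presheaf.stalk x))) :
    LocInjAt ((improved n).c X) x := by
  intro U hxU s hs
  obtain ⟨V, hV, hxV, a, ha⟩ := exists_rep (MKF n) s hxU
  have h1 : ap (onSecs ((improved n).c X) V) (ts (MKF n) V a) = 0 := by
    refine (congrArg (fun z => ap (onSecs ((improved n).c X) V) z) ha).trans ?_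
    refine (rs_onSecs ((improved n).c X) hV s).symm.trans ?_
    exact (congrArg (fun z => ap (rs (KI n X) hV) z) hs).trans (ap_zero _)
  have h2 : ts (NagF ⋙ MKF n) V (ap ((k0 n).app Γ(X, V)) a) = 0 := by
    refine (inKI_c hI n a).symm.trans ?_
    exact (congrArg (fun z => ap (onSecs (inKI n X) V) z) h1).trans (ap_zero _)
  obtain ⟨W, hW, hxW, h3⟩ := exists_zero (NagF ⋙ MKF n) _ hxV h2
  have h4 : ap (mkMap (toNag (X.presheaf.stalk x)) n) (ap ((MKF n).map (gm hxV)) a) = 0 := by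
    have h5 : ap ((NagF ⋙ MKF n).map (gm hxV)) (ap ((k0 n).app Γ(X, V)) a) = 0 := by
      have h6 : gm hxV = res hW ≫ gm hxW := (res_gm hW hxW).symm
      rw [h6, ← ap_ap, h3, ap_zero]
    rw [nat_ap] at h5
    exact h5
  have h5 := (hA (X.presheaf.stalk x) hx n).1 _ h4
  obtain ⟨W', hW', hxW', h6⟩ := col_zero hC hxV a h5
  refine ⟨W', hW'.trans hV, hxW', ?_⟩
  have h7 : ap (rs (K X n) (hW'.trans hV)) s = 0 := by
    refine (rs_rs (K X n) hV hW' s).symm.trans ?_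
    refine (congrArg (fun z => ap (rs (K X n) hW') z) ha.symm).trans ?_
    refine (rs_ts (MKF n) hW' a).trans ?_
    exact (congrArg (fun z => ts (MKF n) W' z) h6).trans (ap_zero _)
  exact h7

theorem locSurj (hC : T_COL.{u}) (hN : T_NAGC.{u}) (hA : T_ALG.{u}) (hI : T_IMP.{u}) (n : ℕ)
    (X : Scheme.{u}) (x : X) (hx : Infinite (IsLocalRing.ResidueField (X.presheaf.stalk x))) :
    LocSurjAt (X := X.toTopCat) ((improved n).c X) x := by
  intro U hxU g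
  obtain ⟨V, hV, hxV, b, hb, hb2⟩ := rep_KI (n := n) (X := X) g hxU
  have h1 : ap ((k1 n).app (X.presheaf.stalk x)) (ap ((NagF ⋙ MKF n).map (gm hxV)) b) =
      ap ((k2 n).app (X.presheaf.stalk x)) (ap ((NagF ⋙ MKF n).map (gm hxV)) b) := by
    rw [← nat_ap, ← nat_ap, hb2]
  obtain ⟨a', ha'⟩ := (hA (X.presheaf.stalk x) hx n).2 _ h1
  obtain ⟨V', hxV', a, ha⟩ := col_surj hC a'
  have hW : V ⊓ V' ≤ V := inf_le_left
  have hW' : V ⊓ V' ≤ V' := inf_le_right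
  have hxW : x ∈ V ⊓ V' := ⟨hxV, hxV'⟩
  have h2 : ap ((NagF ⋙ MKF n).map (gm hxW)) (ap ((k0 n).app Γ(X, V ⊓ V'))
      (ap ((MKF n).map (res hW')) a) - ap ((NagF ⋙ MKF n).map (res hW)) b) = 0 := by
    rw [ap_sub, nat_ap, ap_ap, ap_ap, res_gm, res_gm, ha]
    exact sub_eq_zero.mpr ha'
  obtain ⟨W, hWW, hxWW, h3⟩ := col_zero1 hC hN hxW _ h2
  rw [ap_sub, nat_ap, ap_ap, ap_ap, res_res, res_res] at h3
  have h4 := sub_eq_zero.mp h3
  refine ⟨W, hWW.trans (hW.trans hV), hxWW,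
    ts (MKF n) W (ap ((MKF n).map (res (hWW.trans hW'))) a), ?_⟩
  refine hit hI (ap (rs (KI n X) (hWW.trans (hW.trans hV))) g) _ ?_
  rw [h4, ← rs_ts, hb, rs_onSecs]
  exact congrArg (fun z => ap (onSecs (inKI n X) W) z) (rs_rs (KI n X) hV (hWW.trans hW) g)

theorem epi1 (hK : T_K1.{u}) (hI : T_IMP.{u}) (X : Scheme.{u}) : Epi ((improved 1).c X) := by
  refine Pool.Agent.H84.KEW.epi_of_locally_surjective (X := X.toTopCat) ((improved 1).c X) ?_
  intro U g x hxU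
  obtain ⟨V, hV, hxV, b, hb, hb2⟩ := rep_KI (n := 1) (X := X) g hxU
  obtain ⟨a, ha⟩ := hK Γ(X, V) b hb2
  refine ⟨V, hV, hxV, ts (MKF 1) V a, ?_⟩
  refine hit hI (ap (rs (KI 1 X) hV) g) a ?_
  refine Eq.trans ?_ hb
  exact congrArg (fun z => ts (NagF ⋙ MKF 1) V z) ha

theorem pf_LOCC : T_COL.{u} → T_NAGC.{u} → T_ALG.{u} → T_K1.{u} → T_IMP.{u} → T_LOCC.{u} :=
  fun hC hN hA hK hI => ⟨fun n X x hx => ⟨locInj hC hA hI n X x hx, locSurj hC hN hA hI n X x hx⟩,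
    fun X => epi1 hK hI X⟩

end

end Pool.Agent.H30.KI
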