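import Pool.Agent.H15.KI.TargetsA

/-!
Row K1 of the board kewi_modules: the improved `K_1(R)` is generated by the units of `R`.
-/

namespace Pool.Agent.H30.KI

open Polynomial
open Pool.Agent.H15.KS Pool.Agent.H62.KB Pool.Agent.H15.KI
open Pool.Agent.H62.MK (MilnorK sym sym_update_mul lift lift_sym)

universe u

noncomputable section

/-! ### `K_1` is the group of units -/

section one

variable {S : Type u} [CommRing S]

theorem upd1 (x : Sˣ) : Function.update (fun _ : Fin 1 => (1 : Sˣ)) 0 x = fun _ => x := by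
  funext i
  have hi : i = 0 := Subsingleton.elim i 0
  rw [hi, Function.update_self]

theorem sym1_mul (x y : Sˣ) :
    (sym (fun _ : Fin 1 => x * y) : MilnorK S 1) = sym (fun _ => x) + sym (fun _ => y) := by
  have h := sym_update_mul (fun _ : Fin 1 => (1 : Sˣ)) 0 x y
  rw [upd1, upd1, upd1] at h
  exact h

theorem sym1_one : (sym (fun _ : Fin 1 => (1 : Sˣ)) : MilnorK S 1) = 0 := by
  have h := sym1_mul (1 : Sˣ) 1
  rw [mul_one] at h
  exact left_eq_add.1 h

theorem sym1_inv (x : Sˣ) :
    (sym (fun _ : Fin 1 => x⁻¹) : MilnorK S 1) = -sym (fun _ => x) := by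
  have h := sym1_mul x x⁻¹
  rw [mul_inv_cancel, sym1_one] at h
  exact (neg_eq_of_add_eq_zero_right h.symm).symm

theorem sym1_surj (z : MilnorK S 1) : ∃ x : Sˣ, z = sym (fun _ => x) := by
  refine MilnorK.induction (p := fun z => ∃ x : Sˣ, z = sym (fun _ => x)) z ?_ ?_ ?_ ?_
  · exact ⟨1, sym1_one.symm⟩
  · intro a
    refine ⟨a 0, ?_⟩
    congr 1
    funext i
    rw [Subsingleton.elim i 0]
  · rintro _ ⟨x, rfl⟩
    exact ⟨x⁻¹, (sym1_inv x).symm⟩
  · rintro _ _ ⟨x, rfl⟩ ⟨y, rfl⟩
    exact ⟨x * y, (sym1_mul x y).symm⟩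

/-- The homomorphism from `K_1` to the units. -/
def toU : MilnorK S 1 →+ Additive Sˣ :=
  lift (fun a => Additive.ofMul (a 0))
    (by
      intro a i x y
      have hi : i = 0 := Subsingleton.elim i 0
      subst hi
      rw [Function.update_self, Function.update_self, Function.update_self]
      rfl)
    (by
      intro a i hi _
      omega)

theorem sym1_inj {x y : Sˣ} (h : (sym (fun _ : Fin 1 => x) : MilnorK S 1) = sym (fun _ => y)) :
    x = y := by
  have h1 := congrArg toU h
  unfold toU at h1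
  rw [lift_sym, lift_sym] at h1
  exact h1

end one

/-! ### The ring `R(t)` -/

section nag

variable {R : Type u} [CommRing R]

/-- An ideal which contains the coefficients of a polynomial in `cont R`. -/
theorem one_mem_of_coeff {Q : R[X]} (hQ : Q ∈ cont R) (I : Ideal R) (h : ∀ i, Q.coeff i ∈ I) :
    (1 : R) ∈ I := by
  have h1 : Q.contentIdeal ≤ I := by
    rw [contentIdeal_def, Ideal.span_le]
    intro c hc
    rw [Finset.mem_coe, mem_coeffs_iff] at hc
    obtain ⟨i, -, rfl⟩ := hc
    exact h i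
  have h2 : Q.contentIdeal = ⊤ := hQ
  rw [h2] at h1
  exact h1 trivial

theorem cont_le : cont R ≤ nonZeroDivisors R[X] := by
  intro Q hQ
  rw [Polynomial.mem_nonZeroDivisors_iff]
  intro a ha
  let I : Ideal R := Ideal.span {x | a * x = 0}
  have hI : ∀ x ∈ I, a * x = 0 := by
    intro x hx
    refine Submodule.span_induction (p := fun x _ => a * x = 0) ?_ ?_ ?_ ?_ hx
    · intro x hx
      exact hx
    · exact mul_zero a
    · intro x y _ _ hx hy
      rw [mul_add, hx, hy, add_zero]
    · intro r x _ hx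
      rw [smul_eq_mul, mul_left_comm, hx, mul_zero]
  have h1 : (1 : R) ∈ I := one_mem_of_coeff hQ I fun i => Ideal.subset_span (by
    have := congrArg (fun P => P.coeff i) ha
    simpa [coeff_smul] using this)
  have := hI 1 h1
  rwa [mul_one] at this

theorem pol_inj : Function.Injective (pol R) :=
  IsLocalization.injective (Localization (cont R)) cont_le

theorem toNag_inj : Function.Injective (toNag R) := fun _ _ h =>
  C_injective (pol_inj h)

/-- The main step: elements of `R(t)` whose two images in `R(t₁)(t₂)` agree are in `R`. -/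
theorem mem_of_eq (u : Nag R) (h : toNag (Nag R) u = nagMap (toNag R) u) :
    ∃ a : R, toNag R a = u := by
  obtain ⟨⟨P, Q⟩, hPQ⟩ := IsLocalization.surj (cont R) (S := Localization (cont R)) u
  have hPQ' : u * pol R Q = pol R P := hPQ
  have e1 := congrArg (toNag (Nag R)) hPQ'
  have e2 := congrArg (nagMap (toNag R)) hPQ'
  rw [map_mul] at e1 e2
  rw [nagMap_pol, nagMap_pol, ← h] at e2
  have e3 : pol (Nag R) (C (pol R P) * (Q : R[X]).map (toNag R))
      = pol (Nag R) (C (pol R Q) * P.map (toNag R)) := by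
    rw [map_mul, map_mul]
    have e4 : pol (Nag R) (C (pol R P)) = toNag (Nag R) u * pol (Nag R) (C (pol R Q)) := e1.symm
    rw [e4, ← e2]
    ring
  have e5 := pol_inj e3
  -- coefficients
  have e6 : ∀ j, P * C ((Q : R[X]).coeff j) = (Q : R[X]) * C (P.coeff j) := by
    intro j
    apply pol_inj
    have := congrArg (fun F => F.coeff j) e5
    simp only [coeff_C_mul, coeff_map] at this
    rw [map_mul, map_mul]
    exact this
  let I : Ideal R :=
    { carrier := {x | ∃ a : R, P * C x = (Q : R[X]) * C a}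
      add_mem' := by
        rintro x y ⟨a, ha⟩ ⟨b, hb⟩
        refine ⟨a + b, ?_⟩
        rw [C_add, C_add, mul_add, mul_add, ha, hb]
      zero_mem' := ⟨0, by simp⟩
      smul_mem' := by
        rintro c x ⟨a, ha⟩
        refine ⟨c * a, ?_⟩
        rw [smul_eq_mul, C_mul, C_mul, mul_left_comm, ha]
        ring }
  have h1 : (1 : R) ∈ I := one_mem_of_coeff Q.2 I fun i => ⟨P.coeff i, e6 i⟩
  obtain ⟨a, ha⟩ := h1
  rw [C_1, mul_one] at ha
  refine ⟨a, ?_⟩
  have hu : IsUnit (pol R Q) := IsLocalization.map_units (Localization (cont R)) Q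
  refine hu.mul_right_cancel ?_
  rw [hPQ', ha, map_mul]
  exact mul_comm _ _

end nag

theorem pf_K1 : T_K1.{u} := by
  intro R _ b hb
  obtain ⟨w, hw⟩ := sym1_surj (S := Nag R) b
  have hw' : b = sy (fun _ : Fin 1 => w) := hw
  rw [hw', mkMap_sy, mkMap_sy] at hb
  have h1 := sym1_inj hb
  have h2 : toNag (Nag R) (w : Nag R) = nagMap (toNag R) (w : Nag R) :=
    congrArg Units.val h1
  have h3 : toNag (Nag R) ((w⁻¹ : (Nag R)ˣ) : Nag R)
      = nagMap (toNag R) ((w⁻¹ : (Nag R)ˣ) : Nag R) := by
    have := congrArg Units.val (congrArg (fun v => v⁻¹) h1)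
    exact this
  obtain ⟨a, ha⟩ := mem_of_eq _ h2
  obtain ⟨a', ha'⟩ := mem_of_eq _ h3
  have h4 : a * a' = 1 := by
    apply toNag_inj
    rw [map_mul, ha, ha', map_one, Units.mul_inv]
  refine ⟨sy (fun _ => ⟨a, a', h4, by rw [mul_comm]; exact h4⟩), ?_⟩
  rw [mkMap_sy, hw']
  congr 1
  funext i
  exact Units.ext ha

end

end Pool.Agent.H30.KI
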